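import Pool.Agent.helper63.TI.SpecA

/-!
# Project ti (MP_3703a7_ag), row LH1: the element `h` for `PL1`
-/

set_option autoImplicit false

namespace Pool.Agent.TI

open Polynomial NumberField Pool.Agent.GJ Pool.Agent.TK Pool.Agent.TQ Pool.Agent.TFQ Pool.Agent.TD Pool.Agent.AQ
open Pool.Agent.FJ (VT Om chiO IsFrobO rf rs)
open scoped TensorProduct

noncomputable section

/-- the cyclotomic character of an automorphism which fixes the roots of unity of order `q^K` -/
theorem LH1_chi (q K : ℕ) [Fact q.Prime] (g : Om ≃+* Om) (h : ∀ x : Om, x ^ (q ^ K) = 1 → g x = x) :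
    ‖chiO q g - 1‖ ≤ ‖(q : ℚ_[q]) ^ K‖ := by
  have h1 : PadicInt.toZModPow K ((cyclotomicCharacter Om q g : ℤ_[q]ˣ) : ℤ_[q]) = ((1 : ℕ) : ZMod (q ^ K)) := by
    rw [cyclotomicCharacter.toZModPow]
    symm
    apply modularCyclotomicCharacter.unique
    intro t ht
    have ht1 : (t : Om) ^ (q ^ K) = 1 := by
      have := (mem_rootsOfUnity _ _).1 ht
      rw [← Units.val_pow_eq_pow_val, this, Units.val_one]
    have h4 := h (t : Om) ht1
    rw [ZMod.val_natCast]
    have h5 : (t : Om) ^ 1 = (t : Om) ^ (1 % q ^ K) := pow_eq_pow_mod _ ht1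
    rw [← h5, pow_one]
    exact h4
  have h2 : ((cyclotomicCharacter Om q g : ℤ_[q]ˣ) : ℤ_[q]) - 1 ∈ RingHom.ker (PadicInt.toZModPow K : ℤ_[q] →+* ZMod (q ^ K)) := by
    rw [RingHom.mem_ker, map_sub, h1, map_one, Nat.cast_one, sub_self]
  rw [PadicInt.ker_toZModPow] at h2
  obtain ⟨c, hc⟩ := Ideal.mem_span_singleton'.1 h2
  have h3 : chiO q g - 1 = (c : ℚ_[q]) * (q : ℚ_[q]) ^ K := by
    have h4 := congrArg (fun z : ℤ_[q] => (z : ℚ_[q])) hc
    simp only [PadicInt.coe_mul, PadicInt.coe_sub, PadicInt.coe_pow, PadicInt.coe_one, PadicInt.coe_natCast] at h4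
    exact h4.symm
  rw [h3, norm_mul]
  exact mul_le_of_le_one_left (norm_nonneg _) c.norm_le_one

theorem LH1_chi1 (q : ℕ) [Fact q.Prime] (g : Om ≃+* Om) (h : ∀ (N : ℕ) (x : Om), 0 < N → x ^ N = 1 → g x = x) :
    chiO q g = 1 := by
  have hq : 1 < q := (Fact.out (p := q.Prime)).one_lt
  have h1 : ∀ K : ℕ, ‖chiO q g - 1‖ ≤ ((q : ℝ)⁻¹) ^ K := fun K => by
    have h2 := LH1_chi q K g fun x hx => h (q ^ K) x (pow_pos (by omega) K) hx
    rwa [norm_pow, Padic.norm_p] at h2
  have h3 : ‖chiO q g - 1‖ ≤ 0 := by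
    refine ge_of_tendsto' (tendsto_pow_atTop_nhds_zero_of_lt_one (by positivity) ?_) h1
    exact inv_lt_one_of_one_lt₀ (by exact_mod_cast hq)
  exact sub_eq_zero.1 (norm_le_zero_iff.1 h3)

theorem LH1_av0 {q : ℕ} [Fact q.Prime] {V : Type} [AddCommGroup V] [Module ℚ_[q] V] (P P' : Module.End ℚ_[q] V) (s : ℕ) :
    av P P' 0 s = 0 := by
  unfold av
  refine Finset.sum_eq_zero fun j _ => ?_
  rw [mul_zero, zero_mul]

/-- the automorphisms which fix the `l`-th roots of unity -/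
def LH1_S (l : ℕ) : Subgroup (Om ≃+* Om) where
  carrier := {σ | ∀ x : Om, x ^ l = 1 → σ x = x}
  one_mem' := fun _ _ => rfl
  mul_mem' := by
    intro a b ha hb x hx
    change a (b x) = x
    rw [hb x hx, ha x hx]
  inv_mem' := by
    intro a ha x hx
    change a.symm x = x
    rw [RingEquiv.symm_apply_eq, ha x hx]

theorem LH1_gal1 {l : ℕ} [Fact l.Prime] {D : Dat l} (hBGP : AQ.BGP_stmt) (x : Om ≃+* Om) (e : x = 1) (h : PF D x) (i : Fin D.k)
    (v : VA D l i) : galP l h i v = v := by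
  subst e
  exact ((hBGP l l D).2.2.2 i).2.1 h v

theorem LH1_inv {l : ℕ} [Fact l.Prime] {D : Dat l} (hBGP : AQ.BGP_stmt) (φ : Om ≃+* Om) (h : PF D φ) (h' : PF D φ⁻¹) (i : Fin D.k) :
    (galP l h' i : Module.End ℚ_[l] (VA D l i)) * galP l h i = 1 := by
  refine LinearMap.ext fun v => ?_
  have h3 : PF D (φ⁻¹ * φ) := (hBGP l l D).2.1 _ _ h' h
  change galP l h' i (galP l h i v) = v
  rw [← ((hBGP l l D).2.2.2 i).1 φ⁻¹ φ h' h h3 v]
  exact LH1_gal1 hBGP _ (inv_mul_cancel φ) h3 i v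

theorem LH1_dX0 {k V : Type} [Field k] [AddCommGroup V] [Module k V] (θ : ExteriorAlgebra k V) :
    dX (0 : V →ₗ[k] V) θ = 0 := by
  change dHom (0 : V →ₗ[k] V) θ 0 1 = 0
  induction θ using ExteriorAlgebra.induction with
  | algebraMap r =>
    rw [AlgHom.commutes, Matrix.algebraMap_matrix_apply]
    simp
  | ι w =>
    unfold dHom
    rw [ExteriorAlgebra.lift_ι_apply]
    simp [dMat]
  | mul x y hx hy =>
    rw [map_mul, Matrix.mul_apply, Fin.sum_univ_two, hx, hy, mul_zero, zero_mul, add_zero]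
  | add x y hx hy =>
    rw [map_add, Matrix.add_apply, hx, hy, add_zero]

/-- the product of the elements `g_i` -/
theorem LH1_list {l : ℕ} [Fact l.Prime] (D : Dat l) (hNB1 : TQ.NB1_stmt) (hDD : GJ.DD_stmt) (hNRA : NRA_stmt)
    (hL : ∀ i, Lat l (TZ D l i)) (W : ∀ _ : Fin D.k, ∀ i', Module.End ℚ_[l] (VA D l i')) (m : ℕ) (L : List (Fin D.k)) :
    ∃ N0 : ℕ, ∀ N ≥ N0, ∀ (g : Fin D.k → (Om ≃+* Om)) (hg : ∀ i, D.Fix (g i)),
      (∀ i i', Nr (TZ D l i') (galA l (hg i) i') (W i i') N m) →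
      ∃ hG : D.Fix ((L.map g).prod), ∀ i', Nr (TZ D l i') (galA l hG i') ((L.map (fun i => W i i')).sum) N m := by
  have hl0 : NeZero (l : Om) := ⟨by exact_mod_cast (Fact.out (p := l.Prime)).ne_zero⟩
  have : ∀ i, IsDedekindDomain (CR Om l (D.μ i) (D.a i)) := fun i => hDD Om l _ _ _
  obtain ⟨n1, n2, -⟩ := hNB1 l l D
  induction L with
  | nil =>
    refine ⟨0, fun N _ g hg _ => ?_⟩
    have h0 : D.Fix ((([] : List (Fin D.k)).map g).prod) := fun i j => rfl
    refine ⟨h0, fun i' t ht => ⟨0, (TZ D l i').zero_mem, ?_⟩⟩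
    have h1 : galA l h0 i' = LinearMap.id := n2 h0 i'
    rw [h1, List.map_nil, List.sum_nil, smul_zero, add_zero, LinearMap.zero_apply, smul_zero, add_zero]
    rfl
  | cons i L ih =>
    obtain ⟨N1, hN1⟩ := ih
    have h1 : ∀ i', ∃ N0 : ℕ, ∀ N ≥ N0, ∀ H H' : VA D l i' →ₗ[ℚ_[l]] VA D l i', Nr (TZ D l i') H (W i i') N m →
        Nr (TZ D l i') H' ((L.map (fun i => W i i')).sum) N m →
        Nr (TZ D l i') (H ∘ₗ H') (W i i' + (L.map (fun i => W i i')).sum) N m := fun i' =>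
      (hNRA l (VA D l i') (TZ D l i') (hL i')).2.2.1 (W i i') _ m
    choose N2 hN2 using h1
    refine ⟨max N1 (Finset.univ.sup N2), fun N hN g hg hNr => ?_⟩
    obtain ⟨hG, hGN⟩ := hN1 N (le_trans (le_max_left _ _) hN) g hg hNr
    have hGG : D.Fix (((i :: L).map g).prod) := by
      intro i1 j1
      rw [List.map_cons, List.prod_cons]
      change g i ((L.map g).prod (D.a i1 j1)) = _
      rw [hG i1 j1, hg i i1 j1]
    refine ⟨hGG, fun i' => ?_⟩
    have h2 : galA l hGG i' = galA l (hg i) i' ∘ₗ galA l hG i' := n1 (g i) ((L.map g).prod) (hg i) hG hGG i'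
    rw [h2]
    exact hN2 i' N (le_trans (le_trans (Finset.le_sup (Finset.mem_univ i')) (le_max_right _ _)) hN) _ _ (hNr i i') (hGN i')

theorem LH1 (hAPD : APD_stmt) (hCNJ : CNJ_stmt) (hAVG : AVG_stmt) (hSUY : SUY_stmt) (hNRA : NRA_stmt) (hBGP : AQ.BGP_stmt)
    (hNB1 : TQ.NB1_stmt) (hDD : GJ.DD_stmt) : LH1_stmt := by
  classical
  intro l _ hl2 D hpos hInd hSep θ hOK hφ s hs ζ hζ B
  have hl0 : NeZero (l : Om) := ⟨by exact_mod_cast (Fact.out (p := l.Prime)).ne_zero⟩
  have hded : ∀ i, IsDedekindDomain (CR Om l (D.μ i) (D.a i)) := fun i => hDD Om l _ _ _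
  have hN := hNB1 l l D
  obtain ⟨n1, n2, n3, n4, n5, n6, n7, n8, n9, n10, n11, n12, n13⟩ := hN
  have hfin : ∀ i, FiniteDimensional ℚ_[l] (VA D l i) := fun i => by
    obtain ⟨v, b, -⟩ := hOK.free i s hs
    exact Module.Finite.of_basis b
  have hL : ∀ i, Lat l (TZ D l i) := fun i => by
    obtain ⟨T, hT, hTm⟩ := n12 i (hfin i)
    have h1 : T = TZ D l i := by
      ext f
      exact hTm f
    rw [← h1]
    exact hT
  choose φ hφ using hφ
  choose hPF hW using hφ
  have hPF' : ∀ i, PF D (φ i)⁻¹ := fun i => (hBGP l l D).2.2.1 _ (hPF i)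
  have hl3 : 2 < l := lt_of_le_of_ne (Fact.out (p := l.Prime)).two_le (Ne.symm hl2)
  have hW' : ∀ i, ∀ r : Fin ((l - 1) / 2), ∃ (κ : PadicAlgCl l) (ξ : Fin (D.n i) → PadicAlgCl l)
      (u : Module.Basis (Fin (D.n i)) (PadicAlgCl l) (ES D l i s ζ ((r : ℕ) + 1))),
      κ ≠ 0 ∧ Function.Injective ξ ∧ (∀ t, ξ t ^ D.n i = κ) ∧ ∀ t, bs (galP l (hPF i) i) (u t : WA D l i) = ξ t • (u t : WA D l i) := by
    intro i r
    exact hW i s hs ζ hζ ((r : ℕ) + 1) (Nat.succ_pos _) (by have := r.2; omega)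
  choose κ ξ u hκ hξ hξn hu using hW'
  obtain ⟨Y0, y0, hY0su, hY0T, hY0u, hY0k⟩ := hSUY l hl2 D hpos θ hOK s hs ζ hζ u ((∑ i, D.n i) * B)
  let P : ∀ i i', Module.End ℚ_[l] (VA D l i') := fun i i' => galP l (hPF i) i'
  let P' : ∀ i i', Module.End ℚ_[l] (VA D l i') := fun i i' => galP l (hPF' i) i'
  have hPP : ∀ i i', P' i i' * P i i' = 1 := fun i i' => LH1_inv hBGP (φ i) (hPF i) (hPF' i) i'
  let Y : ∀ i, Module.End ℚ_[l] (VA D l i) := fun i => av (P i i) (P' i i) (Y0 i) (D.n i)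
  refine ⟨Y, u, fun i r t => (D.n i : PadicAlgCl l) * y0 i r t t, ?_, ?_, ?_⟩
  · intro i r t
    exact hAVG l (VA D l i) (P i i) (P' i i) (Y0 i) (D.n i) (κ i r) (ξ i r) (fun t => (u i r t : WA D l i)) (fun t' t => y0 i r t' t)
      (hPP i i) (hκ i r) (hξ i r) (hξn i r) (hu i r) (hY0u i r) (D.n i) dvd_rfl t
  · intro k hk hnc
    have h1 := hY0k (fun i r t => (D.n i : ℤ) * k i r t) ?_ ?_
    · intro h2
      apply h1
      rw [← h2]
      refine Finset.sum_congr rfl fun i _ => Finset.sum_congr rfl fun r _ => Finset.sum_congr rfl fun t _ => ?_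
      push_cast
      ring
    · intro i r t
      have h3 : (D.n i : ℤ) ≤ ((∑ i, D.n i : ℕ) : ℤ) := by
        exact_mod_cast Finset.single_le_sum (f := fun i => D.n i) (fun _ _ => Nat.zero_le _) (Finset.mem_univ i)
      rw [abs_mul, Nat.abs_cast, Nat.cast_mul]
      exact mul_le_mul h3 (hk i r t) (abs_nonneg _) (by positivity)
    · intro h2
      apply hnc
      intro i r t t'
      have h3 := h2 i r t t'
      exact mul_left_cancel₀ (by exact_mod_cast (hpos i).ne') h3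
  · intro m
    -- the families
    let W0 : ∀ _ : Fin D.k, ∀ i', Module.End ℚ_[l] (VA D l i') := fun i => Function.update (fun _ => 0) i (Y0 i)
    let W : ∀ _ : Fin D.k, ∀ i', Module.End ℚ_[l] (VA D l i') := fun i => Function.update (fun _ => 0) i (Y i)
    have hW0 : ∀ i i', IsSuA (θ i') (W0 i i') := by
      intro i i'
      by_cases e : i' = i
      · subst e
        simp only [W0, Function.update_self]
        exact hY0su i'
      · simp only [W0, Function.update_of_ne e]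
        refine ⟨fun s' => ?_, LH1_dX0 _, fun s' => ?_⟩
        · rw [LinearMap.zero_comp, LinearMap.comp_zero]
        · rw [LinearMap.comp_zero, map_zero]
    have hAV : ∀ i i', av (P i i') (P' i i') (W0 i i') (D.n i) = W i i' := by
      intro i i'
      by_cases e : i' = i
      · subst e
        simp only [W0, W, Function.update_self]
        rfl
      · simp only [W0, W, Function.update_of_ne e]
        exact LH1_av0 _ _ _
    have h1 : ∀ i, ∃ N0 : ℕ, ∀ N ≥ N0, ∃ (σ : Om ≃+* Om) (h : D.Fix σ), σ ∈ (⊤ : Subgroup (Om ≃+* Om)) ∧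
        (∀ (N : ℕ) (x : Om), 0 < N → x ^ N = 1 → σ x = x) ∧ ∀ i', Nr (TZ D l i') (galA l h i') (W0 i i') N m := fun i =>
      hAPD l hl2 D hInd hSep θ hOK ⊤ (fun σ => ⟨1, one_pos, Subgroup.mem_top _⟩) (W0 i) (hW0 i) m
    choose N1 hN1 using h1
    have h2 : ∀ i i', ∃ N0 : ℕ, ∀ N ≥ N0, ∀ (h : Om ≃+* Om) (hh : D.Fix h), (∀ x : Om, x ^ l = 1 → h x = x) →
        Nr (TZ D l i') (galA l hh i') (W0 i i') N m →
        ∃ hg : D.Fix ((φ i ^ D.n i)⁻¹ * (φ i * h) ^ D.n i), Nr (TZ D l i') (galA l hg i') (av (galP l (hPF i) i') (P' i i') (W0 i i') (D.n i)) N m :=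
      fun i i' => hCNJ l D i' (hfin i') (φ i) (hPF i) (P' i i') (W0 i i') (hPP i i') (D.n i) m
    choose N2 hN2 using h2
    obtain ⟨N3, hN3⟩ := LH1_list D hNB1 hDD hNRA hL W m (List.finRange D.k)
    refine ⟨max N3 (max (Finset.univ.sup N1) (Finset.univ.sup fun i => Finset.univ.sup (N2 i))), fun N hN => ?_⟩
    have hNa : N3 ≤ N := le_trans (le_max_left _ _) hN
    have hNb : ∀ i, N1 i ≤ N := fun i =>
      le_trans (le_trans (Finset.le_sup (Finset.mem_univ i)) (le_trans (le_max_left _ _) (le_max_right _ _))) hN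
    have hNc : ∀ i i', N2 i i' ≤ N := fun i i' =>
      le_trans (le_trans (le_trans (Finset.le_sup (f := N2 i) (Finset.mem_univ i')) (Finset.le_sup (f := fun i => Finset.univ.sup (N2 i)) (Finset.mem_univ i)))
        (le_trans (le_max_right _ _) (le_max_right _ _))) hN
    choose h hh hhtop hhr hhN using fun i => hN1 i N (hNb i)
    have hhl : ∀ i (x : Om), x ^ l = 1 → h i x = x := fun i x hx => hhr i l x (Fact.out (p := l.Prime)).pos hx
    have h3 : ∀ i i', ∃ hg : D.Fix ((φ i ^ D.n i)⁻¹ * (φ i * h i) ^ D.n i), Nr (TZ D l i') (galA l hg i') (W i i') N m := by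
      intro i i'
      obtain ⟨hg, hg'⟩ := hN2 i i' N (hNc i i') (h i) (hh i) (hhl i) (hhN i i')
      refine ⟨hg, ?_⟩
      rw [← hAV i i']
      exact hg'
    let g : Fin D.k → (Om ≃+* Om) := fun i => (φ i ^ D.n i)⁻¹ * (φ i * h i) ^ D.n i
    have hg : ∀ i, D.Fix (g i) := fun i => (h3 i i).1
    have hgN : ∀ i i', Nr (TZ D l i') (galA l (hg i) i') (W i i') N m := fun i i' => (h3 i i').2
    obtain ⟨hG, hGN⟩ := hN3 N hNa g hg hgN
    refine ⟨((List.finRange D.k).map g).prod, hG, ?_, ?_, fun i' => ?_⟩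
    · have h4 : ((List.finRange D.k).map g).prod ∈ LH1_S l := by
        refine Subgroup.list_prod_mem _ fun x hx => ?_
        obtain ⟨i, -, rfl⟩ := List.mem_map.1 hx
        have h5 : φ i ∈ LH1_S l := fun x hx => (hPF i).1 x hx
        have h6 : h i ∈ LH1_S l := fun x hx => hhl i x hx
        exact (LH1_S l).mul_mem ((LH1_S l).inv_mem ((LH1_S l).pow_mem h5 _)) ((LH1_S l).pow_mem ((LH1_S l).mul_mem h5 h6) _)
      exact h4
    · have h4 : ∀ L : List (Fin D.k), chiO l ((L.map g).prod) = 1 := by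
        intro L
        induction L with
        | nil => exact n9
        | cons i L ih =>
          rw [List.map_cons, List.prod_cons, n8, ih, mul_one]
          change chiO l ((φ i ^ D.n i)⁻¹ * (φ i * h i) ^ D.n i) = 1
          have h7 : chiO l (h i) = 1 := LH1_chi1 l (h i) (hhr i)
          rw [n8, n10, n8, h7, mul_one, ← n10, ← n8, inv_mul_cancel, n9]
      exact h4 _
    · have h4 : ((List.finRange D.k).map (fun i => W i i')).sum = Y i' := by
        rw [← Fin.sum_univ_def, Finset.sum_eq_single i']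
        · simp only [W, Function.update_self]
        · intro i _ hne
          simp only [W]
          exact Function.update_of_ne (Ne.symm hne) _ _
        · intro h5
          exact absurd (Finset.mem_univ i') h5
      rw [← h4]
      exact hGN i'

end

end Pool.Agent.TI
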